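import Pool.Agent.Y63.AWC.Norm
import Pool.Agent.Helper884.IC.Basic

/-!
Clifford theory at the level of characters: the numbers `|G : I_G(θ)| θ(1)`.
-/

open scoped BigOperators Classical
open Representation Pool.Agent.Helper884.IC Pool.Agent.Y63.AWC

set_option linter.unusedSectionVars false
set_option linter.style.haveILetI false

noncomputable section

namespace Pool.Agent.R678.MC

variable {G : Type} [Group G] [Fintype G]

/-- the inertia group -/
def inert (N : Subgroup G) [N.Normal] (θ : N → ℂ) : Subgroup G where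
  carrier := {x | cj N x θ = θ}
  mul_mem' := by
    intro a b ha hb
    simp only [Set.mem_ofPred_eq] at *
    rw [cj_mul, ha, hb]
  one_mem' := cj_one N θ
  inv_mem' := by
    intro a ha
    simp only [Set.mem_ofPred_eq] at *
    have := (cj_inv_iff N a θ θ).mp ha
    exact this.symm

lemma mem_inert {N : Subgroup G} [N.Normal] {θ : N → ℂ} {x : G} :
    x ∈ inert N θ ↔ cj N x θ = θ := Iff.rfl

lemma irr_cj_one (N : Subgroup G) [N.Normal] (x : G) (θ : N → ℂ) : cj N x θ 1 = θ 1 := by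
  simp [cj]

lemma orbit_of_mult {N : Subgroup G} [N.Normal] {χ : G → ℂ} (hχ : IsIrrChar χ) {θ θ' : N → ℂ}
    (h : IsIrrChar θ) (h' : IsIrrChar θ') (hm : mult N χ θ ≠ 0) (hm' : mult N χ θ' ≠ 0) :
    ∃ x : G, cj N x θ' = θ := by
  have h1 := clifford N θ θ' h h'
  have h2 : 0 < ∑ chi ∈ Irr G, mult N chi θ * mult N chi θ' := by
    apply Finset.sum_pos' (fun _ _ => Nat.zero_le _)
    exact ⟨χ, mem_Irr.mpr hχ, Nat.pos_of_ne_zero (Nat.mul_ne_zero hm hm')⟩
  have h3 : 0 < Nat.card {x : G // cj N x θ' = θ} := by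
    rw [← h1]
    exact Nat.mul_pos Nat.card_pos h2
  have h4 : Nonempty {x : G // cj N x θ' = θ} := (Nat.card_pos_iff.mp h3).1
  obtain ⟨x, hx⟩ := h4
  exact ⟨x, hx⟩

lemma exists_over {N : Subgroup G} [N.Normal] {θ : N → ℂ} (h : IsIrrChar θ) :
    ∃ χ : G → ℂ, IsIrrChar χ ∧ mult N χ θ ≠ 0 := by
  by_contra hcon
  push Not at hcon
  have h1 := clifford N θ θ h h
  have h2 : ∑ chi ∈ Irr G, mult N chi θ * mult N chi θ = 0 :=
    Finset.sum_eq_zero fun χ hχ => by rw [hcon χ (mem_Irr.mp hχ)]; rfl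
  rw [h2, mul_zero] at h1
  have h3 : Nonempty {x : G // cj N x θ = θ} := ⟨⟨1, cj_one N θ⟩⟩
  have h4 : 0 < Nat.card {x : G // cj N x θ = θ} := Nat.card_pos
  omega

lemma exists_under {N : Subgroup G} [N.Normal] {χ : G → ℂ} (hχ : IsIrrChar χ) :
    ∃ θ : N → ℂ, IsIrrChar θ ∧ mult N χ θ ≠ 0 := by
  by_contra hcon
  push Not at hcon
  have h1 := congrFun (res_eq N hχ) 1
  rw [Finset.sum_apply, Finset.sum_eq_zero] at h1
  · exact one_ne hχ (by simpa [res] using h1)
  · intro θ hθ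
    rw [hcon θ (mem_Irr.mp hθ)]
    simp

lemma card_fiber {N : Subgroup G} [N.Normal] {θ θ' : N → ℂ} (x : G) (hx : cj N x θ = θ') :
    (Finset.univ.filter fun y : G => cj N y θ = θ').card = Nat.card (inert N θ) := by
  rw [← Fintype.card_subtype, ← Nat.card_eq_fintype_card]
  refine Nat.card_congr ⟨fun y => ⟨y.1 * x⁻¹, ?_⟩, fun i => ⟨i.1 * x, ?_⟩, ?_, ?_⟩
  · rw [mem_inert, cj_mul, y.2]
    exact ((cj_inv_iff N x θ θ').mp hx).symm
  · rw [cj_mul, mem_inert.mp i.2, hx]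
  · intro y; ext; simp
  · intro y; ext; simp

/-- `χ(1) |I(θ)| = [χ_N, θ] |G| θ(1)` -/
lemma hat {N : Subgroup G} [N.Normal] {χ : G → ℂ} (hχ : IsIrrChar χ) {θ : N → ℂ}
    (h : IsIrrChar θ) (hm : mult N χ θ ≠ 0) :
    χ 1 = mult N χ θ * ((inert N θ).index * θ 1) := by
  have h1 : ∑ x : G, (mult N χ (cj N x θ) : ℂ) * cj N x θ 1 =
      (Nat.card G : ℂ) * (mult N χ θ * θ 1) := by
    rw [Finset.sum_congr rfl fun x _ => by rw [mult_cj N hχ h x, irr_cj_one], Finset.sum_const,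
      Finset.card_univ, nsmul_eq_mul, Nat.card_eq_fintype_card]
  have h2 : ∑ x : G, (mult N χ (cj N x θ) : ℂ) * cj N x θ 1 =
      (Nat.card (inert N θ) : ℂ) * χ 1 := by
    rw [← Finset.sum_fiberwise_of_maps_to (s := Finset.univ) (t := Irr N)
      (g := fun x : G => cj N x θ) (fun x _ => mem_Irr.mpr (cj_irr N x h))]
    have h3 := congrFun (res_eq N hχ) 1
    rw [Finset.sum_apply] at h3
    have h4 : χ 1 = ∑ θ' ∈ Irr N, (mult N χ θ' : ℂ) * θ' 1 := by
      simpa [res] using h3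
    rw [h4, Finset.mul_sum]
    refine Finset.sum_congr rfl fun θ' hθ' => ?_
    rw [Finset.sum_congr rfl (g := fun _ => (mult N χ θ' : ℂ) * θ' 1)
      (fun x hx => by rw [(Finset.mem_filter.mp hx).2]), Finset.sum_const, nsmul_eq_mul]
    by_cases hm' : mult N χ θ' = 0
    · simp [hm']
    · obtain ⟨x, hx⟩ := orbit_of_mult hχ (mem_Irr.mp hθ') h hm' hm
      rw [card_fiber x hx]
  have h5 : (Nat.card G : ℂ) = (Nat.card (inert N θ) : ℂ) * (inert N θ).index := by
    rw [← Nat.cast_mul, Subgroup.card_mul_index]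
  have h6 : (Nat.card (inert N θ) : ℂ) ≠ 0 := by exact_mod_cast Nat.card_pos.ne'
  have h7 : (Nat.card (inert N θ) : ℂ) * χ 1 = (Nat.card (inert N θ) : ℂ) *
      (mult N χ θ * ((inert N θ).index * θ 1)) := by
    rw [← h2, h1, h5]; ring
  exact mul_left_cancel₀ h6 h7

/-- the set of degrees of the minimal `G`-invariant characters of `N` -/
def Mcd (G : Type) [Group G] [Fintype G] (N : Subgroup G) [N.Normal] : Set ℕ :=
  {d | ∃ θ : N → ℂ, IsIrrChar θ ∧ (d : ℂ) = (inert N θ).index * θ 1}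

/-- all numbers `|G : I_G(θ)| θ(1)` are powers of `p` -/
def PP (p : ℕ) (N : Subgroup G) [N.Normal] : Prop :=
  ∀ θ : N → ℂ, IsIrrChar θ → ∃ k : ℕ, ((p ^ k : ℕ) : ℂ) = (inert N θ).index * θ 1

end Pool.Agent.R678.MC
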