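import Pool.Agent.R678.MC.A

/-!
Invariant linear characters and a chain of normal subgroups.
-/

open scoped BigOperators Classical
open Representation Pool.Agent.Helper884.IC Pool.Agent.Y63.AWC

set_option linter.unusedSectionVars false
set_option linter.style.haveILetI false

noncomputable section

namespace Pool.Agent.R678.MC

lemma oneRep_irr {H : Type} [Group H] (lam : H →* ℂˣ) : (oneRep lam).IsIrreducible := by
  haveI : Nontrivial (Subrepresentation (oneRep lam)) := by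
    refine ⟨⊥, ⊤, fun h => ?_⟩
    have h1 := congrArg Subrepresentation.toSubmodule h
    have h2 : (⊥ : Submodule ℂ ℂ) = ⊤ := h1
    exact bot_ne_top h2
  refine { eq_bot_or_eq_top := fun S => ?_ }
  rcases eq_bot_or_eq_top S.toSubmodule with h | h
  · left
    exact Subrepresentation.toSubmodule_injective h
  · right
    exact Subrepresentation.toSubmodule_injective h

lemma triv_irr {X : Type} [Group X] : IsIrrChar (fun _ : X => (1 : ℂ)) := by
  refine ⟨ℂ, _, _, inferInstance, oneRep (1 : X →* ℂˣ), oneRep_irr _, ?_⟩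
  funext g
  rw [oneRep_char]
  simp

/-- a character of degree one is multiplicative -/
lemma linear_hom {X : Type} [Group X] {θ : X → ℂ} (h : IsIrrChar θ) (h1 : θ 1 = 1) :
    ∃ lam : X →* ℂˣ, ∀ x, θ x = ((lam x : ℂˣ) : ℂ) := by
  obtain ⟨V, _, _, _, rho, hr, rfl⟩ := h
  have hd : Module.finrank ℂ V = 1 := by
    rw [rho.char_one] at h1
    exact_mod_cast h1
  have hsc : ∀ x : X, ∃ c : ℂ, rho x = c • LinearMap.id := by
    intro x
    obtain ⟨v, hv, hspan⟩ := finrank_eq_one_iff'.mp hd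
    obtain ⟨c, hc⟩ := hspan (rho x v)
    refine ⟨c, ?_⟩
    ext w
    obtain ⟨d, rfl⟩ := hspan w
    rw [map_smul, ← hc, LinearMap.smul_apply, LinearMap.id_apply, smul_comm]
  choose c hc using hsc
  haveI : Nontrivial V := irr_nontrivial rho hr
  have hinj : ∀ a b : ℂ, a • (LinearMap.id : V →ₗ[ℂ] V) = b • LinearMap.id → a = b := by
    intro a b hab
    obtain ⟨v, hv⟩ := exists_ne (0 : V)
    have h2 := congrArg (fun S : V →ₗ[ℂ] V => S v) hab
    simp only [LinearMap.smul_apply, LinearMap.id_apply] at h2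
    exact smul_left_injective ℂ hv h2
  have hone : c 1 = 1 := hinj _ _ (by rw [← hc, map_one, one_smul]; rfl)
  have hmul : ∀ x y, c (x * y) = c x * c y := by
    intro x y
    apply hinj
    rw [← hc, map_mul, hc x, hc y]
    ext v
    change c x • (c y • v) = (c x * c y) • v
    rw [mul_smul]
  let l : X →* ℂ := { toFun := c, map_one' := hone, map_mul' := hmul }
  refine ⟨l.toHomUnits, fun x => ?_⟩
  have h3 : rho.character x = c x := by
    unfold Representation.character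
    rw [hc x, map_smul, LinearMap.trace_id, hd]
    simp
  rw [h3]
  rfl

variable {G : Type} [Group G] [Fintype G]

lemma mult_nat_le {N M : Subgroup G} (hMN : M ≤ N) {θ : N → ℂ} {φ : M → ℂ} (h1 : IsIrrChar θ)
    (h2 : IsIrrChar φ) : ∃ k : ℕ, B (fun m : M => θ ⟨m, hMN m.2⟩) φ = (k : ℂ) := by
  obtain ⟨V, _, _, _, rho, hr, rfl⟩ := h1
  obtain ⟨W, _, _, _, sigma, hs, rfl⟩ := h2
  haveI : Invertible (Nat.card M : ℂ) := invertibleOfNonzero cardG_ne
  let rho' : Representation ℂ M V := rho.comp (Subgroup.inclusion hMN)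
  have h := Representation.card_inv_mul_sum_char_mul_char_eq_finrank sigma rho'
  exact ⟨_, h⟩

lemma PP_mono {p : ℕ} (hp : p.Prime) {N M : Subgroup G} [N.Normal] [M.Normal] (hMN : M ≤ N)
    (h : PP p N) : PP p M := by
  intro φ hφ
  obtain ⟨χ, hχ, hm⟩ := exists_over (G := G) hφ
  obtain ⟨θ₀, hθ₀, hm₀⟩ := exists_under (N := N) hχ
  obtain ⟨k, hk⟩ := h θ₀ hθ₀
  have hatM := hat hχ hφ hm
  have hatN := hat hχ hθ₀ hm₀
  -- the multiplicity of `φ`
  have hval : ∀ θ ∈ Irr N, mult N χ θ = 0 ∨ mult N χ θ = mult N χ θ₀ := by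
    intro θ hθ
    by_cases h0 : mult N χ θ = 0
    · exact Or.inl h0
    · right
      obtain ⟨x, hx⟩ := orbit_of_mult hχ (mem_Irr.mp hθ) hθ₀ h0 hm₀
      rw [← hx, mult_cj N hχ hθ₀ x]
  have hex : ∃ e : ℕ, mult M χ φ = mult N χ θ₀ * e := by
    choose! c hc using fun θ (hθ : θ ∈ Irr N) => mult_nat_le hMN (mem_Irr.mp hθ) hφ
    refine ⟨∑ θ ∈ (Irr N).filter (fun θ => mult N χ θ ≠ 0), c θ, ?_⟩
    have h1 : B (res M χ) φ = ∑ θ ∈ Irr N, (mult N χ θ : ℂ) * c θ := by
      have h2 : res M χ = ∑ θ ∈ Irr N, (mult N χ θ : ℂ) • (fun m : M => θ ⟨m, hMN m.2⟩) := by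
        funext m
        have h3 := congrFun (res_eq N hχ) ⟨m, hMN m.2⟩
        rw [Finset.sum_apply] at h3 ⊢
        exact h3
      rw [h2, B_sum_left]
      refine Finset.sum_congr rfl fun θ hθ => ?_
      rw [B_smul_left, hc θ hθ]
    rw [mult_spec M hχ hφ] at h1
    have h4 : ∑ θ ∈ Irr N, (mult N χ θ : ℂ) * c θ =
        (mult N χ θ₀ : ℂ) * ∑ θ ∈ (Irr N).filter (fun θ => mult N χ θ ≠ 0), (c θ : ℂ) := by
      rw [Finset.mul_sum, Finset.sum_filter]
      refine Finset.sum_congr rfl fun θ hθ => ?_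
      rcases hval θ hθ with h5 | h5
      · simp [h5]
      · rw [h5, if_pos hm₀]
    rw [h4] at h1
    exact_mod_cast h1
  obtain ⟨e, he⟩ := hex
  obtain ⟨n, hn, hn1⟩ := deg_nat hφ
  have h6 : ((inert M φ).index * n) * e = p ^ k := by
    have h7 : (mult N χ θ₀ : ℂ) * ((((inert M φ).index * n) * e : ℕ) : ℂ) =
        (mult N χ θ₀ : ℂ) * ((p ^ k : ℕ) : ℂ) := by
      rw [hk, ← hatN, hatM, he, hn1]
      push_cast
      ring
    have h8 : (mult N χ θ₀ : ℂ) ≠ 0 := by exact_mod_cast hm₀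
    exact_mod_cast mul_left_cancel₀ h8 h7
  have h9 : (inert M φ).index * n ∣ p ^ k := ⟨e, h6.symm⟩
  obtain ⟨j, -, hj⟩ := (Nat.dvd_prime_pow hp).mp h9
  refine ⟨j, ?_⟩
  rw [← hj, hn1]
  push_cast
  rfl

end Pool.Agent.R678.MC
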