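import Pool.Agent.R678.MC.B

/-!
Invariant linear characters and a chain of normal subgroups.
-/

open scoped BigOperators Classical
open Representation Pool.Agent.Helper884.IC Pool.Agent.Y63.AWC

set_option linter.unusedSectionVars false
set_option linter.style.haveILetI false

noncomputable section

namespace Pool.Agent.R678.MC

variable {G : Type} [Group G] [Fintype G]

/-- linear characters of `N` -/
def Lt (N : Subgroup G) : Type := {θ : N → ℂ // IsIrrChar θ ∧ θ 1 = 1}

instance (N : Subgroup G) [N.Normal] : MulAction G (Lt N) where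
  smul x θ := ⟨cj N x⁻¹ θ.1, cj_irr N _ θ.2.1, by rw [irr_cj_one]; exact θ.2.2⟩
  one_smul θ := by
    apply Subtype.ext
    show cj N 1⁻¹ θ.1 = θ.1
    rw [inv_one, cj_one]
  mul_smul x y θ := by
    apply Subtype.ext
    show cj N (x * y)⁻¹ θ.1 = cj N x⁻¹ (cj N y⁻¹ θ.1)
    rw [mul_inv_rev, cj_mul]

lemma card_eq_sum (X : Type) [Group X] [Fintype X] (dg : (X → ℂ) → ℕ)
    (hdg : ∀ θ ∈ Irr X, θ 1 = dg θ) : ∑ θ ∈ Irr X, dg θ ^ 2 = Nat.card X := by
  have h := col_orth (1 : X) 1
  have h2 : Nat.card {n : X // n * 1 * n⁻¹ = 1} = Nat.card X :=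
    Nat.card_congr ⟨fun n => n.1, fun n => ⟨n, by simp⟩, fun _ => rfl, fun _ => rfl⟩
  rw [h2] at h
  have h3 : ((∑ θ ∈ Irr X, dg θ ^ 2 : ℕ) : ℂ) = (Nat.card X : ℂ) := by
    rw [← h]
    push_cast
    refine Finset.sum_congr rfl fun θ hθ => ?_
    rw [inv_one, hdg θ hθ, sq]
  exact_mod_cast h3

/-- a nontrivial linear character invariant under `G` -/
lemma exists_fixed_linear {p : ℕ} (hp : p.Prime) (N : Subgroup G) [N.Normal] (h : PP p N)
    (hpN : p ∣ Nat.card N) :
    ∃ θ : N → ℂ, IsIrrChar θ ∧ θ 1 = 1 ∧ θ ≠ (fun _ => 1) ∧ ∀ x : G, cj N x θ = θ := by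
  haveI : Fact p.Prime := ⟨hp⟩
  have hdeg : ∀ θ ∈ Irr N, ∃ n : ℕ, θ 1 = n ∧ (n = 1 ∨ p ∣ n) := by
    intro θ hθ
    obtain ⟨k, hk⟩ := h θ (mem_Irr.mp hθ)
    obtain ⟨n, hn, hn1⟩ := deg_nat (mem_Irr.mp hθ)
    refine ⟨n, hn1, ?_⟩
    rw [hn1] at hk
    have h1 : p ^ k = (inert N θ).index * n := by exact_mod_cast hk
    have h2 : n ∣ p ^ k := ⟨_, by rw [h1, mul_comm]⟩
    obtain ⟨j, -, rfl⟩ := (Nat.dvd_prime_pow hp).mp h2
    rcases Nat.eq_zero_or_pos j with rfl | hj
    · left; simp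
    · right; exact dvd_pow_self p hj.ne'
  choose! dg hdg hdg2 using hdeg
  have hsum := card_eq_sum N dg hdg
  have hL : p ∣ ((Irr N).filter fun θ => θ 1 = 1).card := by
    have h1 : ∑ θ ∈ Irr N, dg θ ^ 2 = ((Irr N).filter fun θ => θ 1 = 1).card +
        ∑ θ ∈ (Irr N).filter (fun θ => ¬ θ 1 = 1), dg θ ^ 2 := by
      rw [← Finset.sum_filter_add_sum_filter_not (Irr N) (fun θ => θ 1 = 1)]
      congr 1
      rw [Finset.card_eq_sum_ones]
      refine Finset.sum_congr rfl fun θ hθ => ?_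
      obtain ⟨h2, h3⟩ := Finset.mem_filter.mp hθ
      have h4 : dg θ = 1 := by
        have := hdg θ h2
        rw [h3] at this
        exact_mod_cast this.symm
      rw [h4, one_pow]
    have h5 : p ∣ ∑ θ ∈ (Irr N).filter (fun θ => ¬ θ 1 = 1), dg θ ^ 2 := by
      refine Finset.dvd_sum fun θ hθ => ?_
      obtain ⟨h2, h3⟩ := Finset.mem_filter.mp hθ
      rcases hdg2 θ h2 with h4 | h4
      · exact absurd (by rw [hdg θ h2, h4]; simp) h3
      · exact dvd_pow h4 two_ne_zero
    rw [← hsum, h1] at hpN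
    exact (Nat.dvd_add_left h5).mp hpN
  haveI hfin : Finite (Lt N) := by
    have : Finite {θ : N → ℂ // θ ∈ (Irr N).filter fun θ => θ 1 = 1} := inferInstance
    refine Finite.of_injective (fun θ : Lt N =>
      (⟨θ.1, Finset.mem_filter.mpr ⟨mem_Irr.mpr θ.2.1, θ.2.2⟩⟩ :
        {θ : N → ℂ // θ ∈ (Irr N).filter fun θ => θ 1 = 1})) ?_
    intro a b hab
    exact Subtype.ext (congrArg (fun z => z.1) hab)
  have hcard : Nat.card (Lt N) = ((Irr N).filter fun θ => θ 1 = 1).card :=
    Nat.subtype_card _ fun θ => by rw [Finset.mem_filter, mem_Irr]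
  obtain ⟨P⟩ : Nonempty (Sylow p G) := inferInstance
  have hmod := P.isPGroup'.card_modEq_card_fixedPoints (Lt N)
  rw [hcard] at hmod
  have hfp : p ∣ Nat.card (MulAction.fixedPoints P (Lt N)) := by
    have h1 := (Nat.modEq_zero_iff_dvd.mpr hL)
    exact (Nat.modEq_zero_iff_dvd).mp (hmod.symm.trans h1)
  let t0 : Lt N := ⟨fun _ => 1, triv_irr, rfl⟩
  have ht0 : t0 ∈ MulAction.fixedPoints P (Lt N) := by
    intro g
    apply Subtype.ext
    rfl
  obtain ⟨t, ht, hne⟩ : ∃ t ∈ MulAction.fixedPoints P (Lt N), t ≠ t0 := by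
    by_contra hcon
    push Not at hcon
    have h1 : Nat.card (MulAction.fixedPoints P (Lt N)) = 1 := by
      rw [Nat.card_eq_one_iff_unique]
      refine ⟨⟨fun a b => ?_⟩, ⟨⟨t0, ht0⟩⟩⟩
      apply Subtype.ext
      rw [hcon a.1 a.2, hcon b.1 b.2]
    rw [h1] at hfp
    exact hp.one_lt.ne' (Nat.dvd_one.mp hfp)
  refine ⟨t.1, t.2.1, t.2.2, fun h => hne (Subtype.ext h), ?_⟩
  -- the inertia group contains `P` and has `p`-power index
  have hP : (P : Subgroup G) ≤ inert N t.1 := by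
    intro x hx
    rw [mem_inert]
    have h1 := congrArg Subtype.val (ht ⟨x⁻¹, P.inv_mem hx⟩)
    have h2 : cj N (x⁻¹)⁻¹ t.1 = t.1 := h1
    rwa [inv_inv] at h2
  obtain ⟨k, hk⟩ := h t.1 t.2.1
  rw [t.2.2, mul_one] at hk
  have hk' : p ^ k = (inert N t.1).index := by exact_mod_cast hk
  have hnd : ¬ p ∣ (inert N t.1).index := by
    intro h1
    exact P.not_dvd_index (h1.trans (Subgroup.index_dvd_of_le hP))
  have hk0 : k = 0 := by
    by_contra hk0
    exact hnd (hk' ▸ dvd_pow_self p hk0)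
  have htop : inert N t.1 = ⊤ := by
    rw [← Subgroup.index_eq_one, ← hk', hk0, pow_zero]
  intro x
  rw [← mem_inert, htop]
  exact Subgroup.mem_top x

/-- equality in the kernel of all irreducible characters forces the identity -/
lemma eq_one_of_chars {X : Type} [Group X] [Fintype X] (c : X)
    (h : ∀ θ : X → ℂ, IsIrrChar θ → θ c = θ 1) : c = 1 := by
  have h1 := col_orth c 1
  have h2 := col_orth (1 : X) 1
  have h3 : ∑ chi ∈ Irr X, chi c * chi 1⁻¹ = ∑ chi ∈ Irr X, chi 1 * chi 1⁻¹ :=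
    Finset.sum_congr rfl fun χ hχ => by rw [h χ (mem_Irr.mp hχ)]
  rw [h1, h2] at h3
  have h4 : Nat.card {n : X // n * c * n⁻¹ = 1} = Nat.card {n : X // n * 1 * n⁻¹ = 1} := by
    exact_mod_cast h3
  have h5 : Nonempty {n : X // n * 1 * n⁻¹ = 1} := ⟨⟨1, by simp⟩⟩
  have h6 : 0 < Nat.card {n : X // n * c * n⁻¹ = 1} := by
    rw [h4]; exact Nat.card_pos
  obtain ⟨n, hn⟩ := (Nat.card_pos_iff.mp h6).1
  have : c = n⁻¹ * 1 * n := by rw [← hn]; group
  rw [this]; simp

/-- chains of normal subgroups with cyclic factors ending in an abelian group -/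
inductive Good {G : Type} [Group G] : Subgroup G → Prop
  | ab (K : Subgroup G) (hn : K.Normal) (hc : ∀ x ∈ K, ∀ y ∈ K, x * y = y * x) : Good K
  | step (K M : Subgroup G) (hK : K.Normal) (hM : M.Normal) (hMK : M ≤ K) (lam : K →* ℂˣ)
      (hlam : ∀ x : K, lam x = 1 → (x : G) ∈ M) (h : Good M) : Good K

theorem good_of_PP {p : ℕ} (hp : p.Prime) : ∀ (n : ℕ) (N : Subgroup G) [N.Normal],
    Nat.card N = n → PP p N → Good N := by
  intro n
  induction n using Nat.strong_induction_on with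
  | _ n ih =>
    intro N hN hn h
    by_cases hpN : p ∣ Nat.card N
    · obtain ⟨θ, hθ, hθ1, hne, hinv⟩ := exists_fixed_linear hp N h hpN
      obtain ⟨lam, hlam⟩ := linear_hom hθ hθ1
      let M : Subgroup G := lam.ker.map N.subtype
      have hmem : ∀ x : N, (x : G) ∈ M ↔ lam x = 1 := by
        intro x
        constructor
        · rintro ⟨y, hy, hxy⟩
          have : y = x := Subtype.ext hxy
          rw [← this]
          exact hy
        · intro hx
          exact ⟨x, hx, rfl⟩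
      have hMN : M ≤ N := by
        rintro _ ⟨y, _, rfl⟩
        exact y.2
      have hM : M.Normal := by
        refine ⟨fun x hx g => ?_⟩
        have hxN := hMN hx
        have h1 := (hmem ⟨x, hxN⟩).mp hx
        have h2 := congrFun (hinv g) ⟨x, hxN⟩
        have h3 : MulAut.conjNormal g (⟨x, hxN⟩ : N) =
            (⟨g * x * g⁻¹, hN.conj_mem x hxN g⟩ : N) := by
          apply Subtype.ext
          rw [MulAut.conjNormal_apply]
        unfold cj at h2
        rw [h3, hlam, hlam, h1] at h2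
        have h4 : lam ⟨g * x * g⁻¹, hN.conj_mem x hxN g⟩ = 1 := Units.ext h2
        exact (hmem ⟨g * x * g⁻¹, hN.conj_mem x hxN g⟩).mpr h4
      have hlt : Nat.card M < n := by
        rw [← hn]
        rcases (Subgroup.card_le_of_le hMN).lt_or_eq with h1 | h1
        · exact h1
        · exfalso
          apply hne
          have h2 : M = N := Subgroup.eq_of_le_of_card_ge hMN h1.ge
          funext x
          have h3 : (x : G) ∈ M := by rw [h2]; exact x.2
          rw [hlam, (hmem x).mp h3]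
          simp
      refine Good.step N M hN hM hMN lam (fun x hx => (hmem x).mpr hx) ?_
      exact ih _ hlt M rfl (PP_mono hp hMN h)
    · refine Good.ab N hN ?_
      have hlin : ∀ θ : N → ℂ, IsIrrChar θ → θ 1 = 1 := by
        intro θ hθ
        obtain ⟨k, hk⟩ := h θ hθ
        obtain ⟨m, hm, hm1⟩ := deg_nat hθ
        have h1 := deg_dvd hθ hm1
        rw [hm1] at hk ⊢
        have h2 : p ^ k = (inert N θ).index * m := by exact_mod_cast hk
        have h3 : m ∣ p ^ k := ⟨_, by rw [h2, mul_comm]⟩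
        obtain ⟨j, -, rfl⟩ := (Nat.dvd_prime_pow hp).mp h3
        rcases Nat.eq_zero_or_pos j with rfl | hj
        · simp
        · exact absurd ((dvd_pow_self p hj.ne').trans h1) hpN
      intro x hx y hy
      have h4 : (⟨x, hx⟩ : N) * ⟨y, hy⟩ * (⟨x, hx⟩ : N)⁻¹ * (⟨y, hy⟩ : N)⁻¹ = 1 := by
        apply eq_one_of_chars
        intro θ hθ
        obtain ⟨lam, hlam⟩ := linear_hom hθ (hlin θ hθ)
        rw [hlam, hlam]
        simp only [map_mul, map_inv, map_one]
        congr 1
        rw [mul_comm (lam _) (lam ⟨y, hy⟩)]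
        group
      have h5 := congrArg (fun z : N => (z : G)) h4
      simp only [Subgroup.coe_mul, Subgroup.coe_inv, Subgroup.coe_one] at h5
      have h6 : x * y = 1 * y * x := by rw [← h5]; group
      rw [h6, one_mul]

end Pool.Agent.R678.MC
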