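import Pool.Agent.R678.MC.C

/-!
Stable blocks of imprimitivity.
-/

open scoped BigOperators Classical
open Representation Pool.Agent.Helper884.IC Pool.Agent.Y63.AWC

set_option linter.unusedSectionVars false
set_option linter.style.haveILetI false

noncomputable section

namespace Pool.Agent.R678.MC

/-- common eigenvectors of commuting operators -/
lemma common_eig {V : Type} [AddCommGroup V] [Module ℂ V] [FiniteDimensional ℂ V] {ι : Type}
    (T : ι → Module.End ℂ V) : ∀ (n : ℕ) (W : Submodule ℂ V), Module.finrank ℂ W = n → W ≠ ⊥ →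
    (∀ a, ∀ w ∈ W, T a w ∈ W) → (∀ a b, ∀ w ∈ W, T a (T b w) = T b (T a w)) →
    ∃ w ∈ W, w ≠ 0 ∧ ∀ a, ∃ c : ℂ, T a w = c • w := by
  intro n
  induction n using Nat.strong_induction_on with
  | _ n ih =>
    intro W hn hW hst hcomm
    by_cases hsc : ∀ a, ∃ c : ℂ, ∀ w ∈ W, T a w = c • w
    · obtain ⟨w, hw, hw0⟩ := Submodule.exists_mem_ne_zero_of_ne_bot hW
      exact ⟨w, hw, hw0, fun a => ⟨(hsc a).choose, (hsc a).choose_spec w hw⟩⟩
    · push Not at hsc
      obtain ⟨a, ha⟩ := hsc
      haveI : Nontrivial W := Submodule.nontrivial_iff_ne_bot.mpr hW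
      obtain ⟨μ, hμ⟩ := Module.End.exists_eigenvalue ((T a).restrict (hst a))
      obtain ⟨v, hv⟩ := hμ.exists_hasEigenvector
      have hv1 : T a (v : V) = μ • (v : V) := by
        have := congrArg Subtype.val hv.apply_eq_smul
        simpa using this
      let W₁ : Submodule ℂ V :=
        { carrier := {w | w ∈ W ∧ T a w = μ • w}
          add_mem' := by
            rintro x y ⟨hx, hx1⟩ ⟨hy, hy1⟩
            exact ⟨W.add_mem hx hy, by rw [map_add, hx1, hy1, smul_add]⟩
          zero_mem' := ⟨W.zero_mem, by simp⟩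
          smul_mem' := by
            rintro c x ⟨hx, hx1⟩
            exact ⟨W.smul_mem c hx, by rw [map_smul, hx1, smul_comm]⟩ }
      have hle : W₁ ≤ W := fun w hw => hw.1
      have hlt : W₁ < W := by
        refine lt_of_le_of_ne hle fun h => ?_
        obtain ⟨w, hw, hne⟩ := ha μ
        rw [← h] at hw
        exact hne hw.2
      have hne : W₁ ≠ ⊥ := by
        intro h
        have h1 : (v : V) ∈ W₁ := ⟨v.2, hv1⟩
        rw [h, Submodule.mem_bot] at h1
        exact hv.2 (Subtype.ext h1)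
      have hfr : Module.finrank ℂ W₁ < n := by
        rw [← hn]
        exact Submodule.finrank_lt_finrank_of_lt hlt
      obtain ⟨w, hw, hw0, hw1⟩ := ih _ hfr W₁ rfl hne
        (fun b w hw => ⟨hst b w hw.1, by rw [hcomm a b w hw.1, hw.2, map_smul]⟩)
        (fun b c w hw => hcomm b c w hw.1)
      exact ⟨w, hw.1, hw0, hw1⟩

variable {G : Type} [Group G] [Fintype G] {N : Subgroup G} [hN : N.Normal]
variable {V : Type} [AddCommGroup V] [Module ℂ V] [FiniteDimensional ℂ V]
  (ρ : Representation ℂ N V)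

/-- a block of imprimitivity of `ρ`, together with its stabiliser in the inertia group -/
structure Blk (S : Subgroup G) (e : Module.End ℂ V) : Prop where
  idem : e * e = e
  ne : e ≠ 0
  comm : ∀ h : N, (h : G) ∈ S → e * ρ h = ρ h * e
  off : ∀ n : N, (n : G) ∉ S → e * ρ n * e = 0
  inv : ∀ s ∈ S, ∀ n : N, LinearMap.trace ℂ V (e * ρ (MulAut.conjNormal s n)) =
    LinearMap.trace ℂ V (e * ρ n)
  le : S ≤ inert N ρ.character
  cov : ∀ t ∈ inert N ρ.character, ∃ n : N, (n : G) * t ∈ S

variable {ρ}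

lemma span_top (hirr : ρ.IsIrreducible) (W : Submodule ℂ V) (hW : W ≠ ⊥) (v : V) :
    v ∈ Submodule.span ℂ {w : V | ∃ n : N, ∃ u ∈ W, w = ρ n u} := by
  let S : Subrepresentation ρ :=
    { toSubmodule := Submodule.span ℂ {w : V | ∃ n : N, ∃ u ∈ W, w = ρ n u}
      apply_mem_toSubmodule := by
        intro g w hw
        induction hw using Submodule.span_induction with
        | mem x hx =>
          obtain ⟨n, u, hu, rfl⟩ := hx
          apply Submodule.subset_span
          exact ⟨g * n, u, hu, by rw [map_mul]; rfl⟩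
        | zero => simp
        | add x y _ _ hx hy => rw [map_add]; exact Submodule.add_mem _ hx hy
        | smul c x _ hx => rw [map_smul]; exact Submodule.smul_mem _ c hx }
  rcases hirr.eq_bot_or_eq_top S with h | h
  · exfalso
    apply hW
    rw [Submodule.eq_bot_iff]
    intro u hu
    have h1 : u ∈ S.toSubmodule := Submodule.subset_span ⟨1, u, hu, by rw [map_one]; rfl⟩
    rw [h] at h1
    exact h1
  · have h1 : v ∈ S.toSubmodule := by rw [h]; trivial
    exact h1

lemma Blk.irrU {S : Subgroup G} {e : Module.End ℂ V} (hirr : ρ.IsIrreducible) (hb : Blk ρ S e)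
    (W : Submodule ℂ V) (hWe : ∀ w ∈ W, e w = w) (hW : W ≠ ⊥)
    (hst : ∀ h : N, (h : G) ∈ S → ∀ w ∈ W, ρ h w ∈ W) (u : V) (hu : e u = u) : u ∈ W := by
  have key : ∀ v : V, v ∈ Submodule.span ℂ {w : V | ∃ n : N, ∃ u ∈ W, w = ρ n u} → e v ∈ W := by
    intro v hv
    induction hv using Submodule.span_induction with
    | mem x hx =>
      obtain ⟨n, w, hw, rfl⟩ := hx
      by_cases hn : (n : G) ∈ S
      · have h1 : e (ρ n w) = ρ n (e w) := congrArg (fun T : Module.End ℂ V => T w) (hb.comm n hn)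
        rw [h1, hWe w hw]
        exact hst n hn w hw
      · have h1 : e (ρ n (e w)) = 0 := congrArg (fun T : Module.End ℂ V => T w) (hb.off n hn)
        rw [hWe w hw] at h1
        rw [h1]
        exact W.zero_mem
    | zero => rw [map_zero]; exact W.zero_mem
    | add x y _ _ hx hy => rw [map_add]; exact W.add_mem hx hy
    | smul c x _ hx => rw [map_smul]; exact W.smul_mem c hx
  have h2 := key u (span_top hirr W hW u)
  rwa [hu] at h2

/-- `h` acts as a scalar on the block -/
def Sc (ρ : Representation ℂ N V) (e : Module.End ℂ V) (h : N) : Prop := ∃ c : ℂ, ρ h * e = c • e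

lemma good_find {S : Subgroup G} {e : Module.End ℂ V} (hb : Blk ρ S e) {K : Subgroup G}
    (hK : Good K) (hKN : K ≤ N) (hex : ∃ a : N, (a : G) ∈ K ∧ (a : G) ∈ S ∧ ¬ Sc ρ e a) :
    ∃ A : Subgroup G, A.Normal ∧ A ≤ N ∧ (∃ a : N, (a : G) ∈ A ∧ (a : G) ∈ S ∧ ¬ Sc ρ e a) ∧
      ∀ a b : N, (a : G) ∈ A → (a : G) ∈ S → (b : G) ∈ A → (b : G) ∈ S →
        ρ a * ρ b * e = ρ b * ρ a * e := by
  induction hK with
  | ab K hn hc =>
    refine ⟨K, hn, hKN, hex, fun a b ha _ hb' _ => ?_⟩
    rw [← map_mul, ← map_mul]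
    have : a * b = b * a := Subtype.ext (hc a ha b hb')
    rw [this]
  | step K M hK hM hMK lam hlam hgood ih =>
    by_cases hMex : ∃ a : N, (a : G) ∈ M ∧ (a : G) ∈ S ∧ ¬ Sc ρ e a
    · exact ih (hMK.trans hKN) hMex
    · push Not at hMex
      refine ⟨K, hK, hKN, hex, ?_⟩
      -- a generator of the image of `K ∩ S`
      let L : Subgroup ℂˣ := (S.subgroupOf K).map lam
      haveI : Finite L := by
        have : Finite (S.subgroupOf K) := inferInstance
        exact Set.Finite.to_subtype ((Set.toFinite _).image _)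
      haveI : IsCyclic L := inferInstance
      obtain ⟨⟨g, hgL⟩, hg⟩ := IsCyclic.exists_generator (α := L)
      obtain ⟨k, hkS, rfl⟩ := hgL
      have hkS' : (k : G) ∈ S := hkS
      let k' : N := ⟨k, hKN k.2⟩
      have hpow : ∀ a : N, (a : G) ∈ K → (a : G) ∈ S → ∃ (i : ℤ) (c : ℂ),
          ρ a * e = c • (ρ (k' ^ i) * e) := by
        intro a haK haS
        have h1 : lam ⟨a, haK⟩ ∈ L := ⟨⟨a, haK⟩, haS, rfl⟩
        obtain ⟨i, hi⟩ := Subgroup.mem_zpowers_iff.mp (hg ⟨_, h1⟩)
        have hi' : lam k ^ i = lam ⟨a, haK⟩ := congrArg Subtype.val hi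
        have h2 : lam (⟨a, haK⟩ * k ^ (-i)) = 1 := by
          rw [map_mul, map_zpow, ← hi']
          simp
        have h3 := hlam _ h2
        have h4 : ((a * k' ^ (-i) : N) : G) ∈ M := by
          simpa [k'] using h3
        have h5 : ((a * k' ^ (-i) : N) : G) ∈ S := by
          have : (k' : G) ∈ S := hkS'
          rw [Subgroup.coe_mul, Subgroup.coe_zpow]
          exact S.mul_mem haS (S.zpow_mem this _)
        have h6 : Sc ρ e (a * k' ^ (-i)) := by
          by_contra h7
          exact h7 (hMex _ h4 h5)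
        obtain ⟨c, hc⟩ := h6
        refine ⟨i, c, ?_⟩
        have h7 : ((k' ^ i : N) : G) ∈ S := by
          rw [Subgroup.coe_zpow]
          exact S.zpow_mem hkS' _
        have h8 : a = (a * k' ^ (-i)) * k' ^ i := by group
        have h9 := hb.comm _ h7
        calc ρ a * e = ρ ((a * k' ^ (-i)) * k' ^ i) * e := by rw [← h8]
          _ = ρ (a * k' ^ (-i)) * (ρ (k' ^ i) * e) := by rw [map_mul, mul_assoc]
          _ = (ρ (a * k' ^ (-i)) * e) * ρ (k' ^ i) := by rw [← h9, mul_assoc]
          _ = c • (e * ρ (k' ^ i)) := by rw [hc, smul_mul_assoc]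
          _ = c • (ρ (k' ^ i) * e) := by rw [h9]
      intro a b haK haS hbK hbS
      obtain ⟨i, c, hi⟩ := hpow a haK haS
      obtain ⟨j, d, hj⟩ := hpow b hbK hbS
      have hki : ∀ i : ℤ, e * ρ (k' ^ i) = ρ (k' ^ i) * e := by
        intro i
        apply hb.comm
        rw [Subgroup.coe_zpow]
        exact S.zpow_mem hkS' _
      have key : ∀ (a b : N) (i j : ℤ) (c d : ℂ), ρ a * e = c • (ρ (k' ^ i) * e) →
          ρ b * e = d • (ρ (k' ^ j) * e) → ρ a * ρ b * e = (c * d) • (ρ (k' ^ (i + j)) * e) := by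
        intro a b i j c d hi hj
        rw [mul_assoc, hj, mul_smul_comm, ← hki j, ← mul_assoc, hi, smul_mul_assoc, mul_assoc,
          hki j, ← mul_assoc, ← map_mul, ← zpow_add, smul_smul, mul_comm c d]
      rw [key a b i j c d hi hj, key b a j i d c hj hi, mul_comm c d, add_comm i j]

end Pool.Agent.R678.MC
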