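import Pool.Agent.R678.MC.D

/-!
Refinement of stable blocks.
-/

open scoped BigOperators Classical
open Representation Pool.Agent.Helper884.IC Pool.Agent.Y63.AWC

set_option linter.unusedSectionVars false
set_option linter.style.haveILetI false

noncomputable section

namespace Pool.Agent.R678.MC

variable {G : Type} [Group G] [Fintype G] {N : Subgroup G} [hN : N.Normal]
variable {V : Type} [AddCommGroup V] [Module ℂ V] [FiniteDimensional ℂ V]
  {ρ : Representation ℂ N V}

section proj

variable {A : Subgroup G} (hA : A ≤ N)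

/-- the projection on the `β`-part -/
def proj (ρ : Representation ℂ N V) {A : Subgroup G} (hA : A ≤ N) (β : A →* ℂ) :
    Module.End ℂ V :=
  (Nat.card A : ℂ)⁻¹ • ∑ a : A, β a⁻¹ • ρ (Subgroup.inclusion hA a)

lemma beta_inv (β : A →* ℂ) (a : A) : β a⁻¹ * β a = 1 := by
  rw [← map_mul, inv_mul_cancel, map_one]

lemma beta_inv' (β : A →* ℂ) (a : A) : β a * β a⁻¹ = 1 := by
  rw [← map_mul, mul_inv_cancel, map_one]

lemma proj_left (β : A →* ℂ) (b : A) :
    ρ (Subgroup.inclusion hA b) * proj ρ hA β = β b • proj ρ hA β := by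
  unfold proj
  rw [mul_smul_comm, smul_comm (β b)]
  congr 1
  rw [Finset.mul_sum, Finset.smul_sum]
  refine Fintype.sum_equiv (Equiv.mulLeft b) _ _ fun a => ?_
  rw [Equiv.coe_mulLeft, mul_smul_comm, ← map_mul, ← map_mul, smul_smul]
  congr 1
  rw [mul_inv_rev, map_mul]
  have := beta_inv' β b
  calc β a⁻¹ = (β b * β b⁻¹) * β a⁻¹ := by rw [this, one_mul]
    _ = _ := by ring

lemma proj_right (β : A →* ℂ) (b : A) :
    proj ρ hA β * ρ (Subgroup.inclusion hA b) = β b • proj ρ hA β := by
  unfold proj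
  rw [smul_mul_assoc, smul_comm (β b)]
  congr 1
  rw [Finset.sum_mul, Finset.smul_sum]
  refine Fintype.sum_equiv (Equiv.mulRight b) _ _ fun a => ?_
  rw [Equiv.coe_mulRight, smul_mul_assoc, ← map_mul, ← map_mul, smul_smul]
  congr 1
  rw [mul_inv_rev, map_mul]
  have := beta_inv' β b
  calc β a⁻¹ = (β b * β b⁻¹) * β a⁻¹ := by rw [this, one_mul]
    _ = _ := by ring

lemma cardA_ne : (Nat.card A : ℂ) ≠ 0 := by exact_mod_cast Nat.card_pos.ne'

lemma proj_eig (β : A →* ℂ) (u : V) (hu : ∀ a : A, ρ (Subgroup.inclusion hA a) u = β a • u) :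
    proj ρ hA β u = u := by
  unfold proj
  rw [LinearMap.smul_apply, LinearMap.sum_apply]
  have h1 : ∀ a : A, (β a⁻¹ • ρ (Subgroup.inclusion hA a)) u = u := by
    intro a
    rw [LinearMap.smul_apply, hu, smul_smul, beta_inv, one_smul]
  rw [Finset.sum_congr rfl fun a _ => h1 a, Finset.sum_const, Finset.card_univ,
    ← Nat.card_eq_fintype_card, ← Nat.cast_smul_eq_nsmul ℂ, smul_smul,
    inv_mul_cancel₀ cardA_ne, one_smul]

lemma proj_idem (β : A →* ℂ) : proj ρ hA β * proj ρ hA β = proj ρ hA β := by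
  ext v
  apply proj_eig
  intro a
  exact congrArg (fun T : Module.End ℂ V => T v) (proj_left (ρ := ρ) hA β a)

lemma proj_orth {β γ : A →* ℂ} (h : γ ≠ β) : proj ρ hA γ * proj ρ hA β = 0 := by
  obtain ⟨b, hb⟩ := DFunLike.ne_iff.mp h
  have h1 : γ b • (proj ρ hA γ * proj ρ hA β) = β b • (proj ρ hA γ * proj ρ hA β) := by
    rw [← smul_mul_assoc, ← proj_right, mul_assoc, proj_left, mul_smul_comm]
  have h2 : (γ b - β b) • (proj ρ hA γ * proj ρ hA β) = 0 := by
    rw [sub_smul, h1, sub_self]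
  rcases smul_eq_zero.mp h2 with h3 | h3
  · exact absurd (sub_eq_zero.mp h3) hb
  · exact h3

/-- conjugation `a ↦ s a s⁻¹` on a subgroup normalised by `s` -/
def cs (s : G) (hs : ∀ a ∈ A, s * a * s⁻¹ ∈ A) : A →* A where
  toFun a := ⟨s * a * s⁻¹, hs a a.2⟩
  map_one' := by ext; simp
  map_mul' a b := by ext; simp

lemma proj_conj (β : A →* ℂ) (h : N) (hs : ∀ a ∈ A, (h : G) * a * (h : G)⁻¹ ∈ A)
    (hs' : ∀ a ∈ A, (h : G)⁻¹ * a * ((h : G)⁻¹)⁻¹ ∈ A) :
    ρ h * proj ρ hA β = proj ρ hA (β.comp (cs (h : G)⁻¹ hs')) * ρ h := by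
  unfold proj
  rw [mul_smul_comm, smul_mul_assoc]
  congr 1
  rw [Finset.mul_sum, Finset.sum_mul]
  let c : A ≃ A :=
    { toFun := fun a => ⟨h * a * (h : G)⁻¹, hs a a.2⟩
      invFun := fun a => ⟨(h : G)⁻¹ * a * ((h : G)⁻¹)⁻¹, hs' a a.2⟩
      left_inv := fun a => by ext; simp; group
      right_inv := fun a => by ext; simp; group }
  refine Fintype.sum_equiv c _ _ fun a => ?_
  rw [mul_smul_comm, smul_mul_assoc, ← map_mul, ← map_mul]
  congr 1
  · rw [MonoidHom.comp_apply]
    congr 1
    ext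
    simp [c, cs, mul_assoc]
  · congr 1
    ext
    simp [c]

end proj

lemma trace_idem_ne {e : Module.End ℂ V} (h : e * e = e) (hne : e ≠ 0) :
    LinearMap.trace ℂ V e = Module.finrank ℂ (LinearMap.range e) ∧ LinearMap.trace ℂ V e ≠ 0 := by
  have hp : LinearMap.IsProj (LinearMap.range e) e := by
    constructor
    · intro x
      exact ⟨x, rfl⟩
    · rintro _ ⟨y, rfl⟩
      exact congrArg (fun T : Module.End ℂ V => T y) h
  have h1 := hp.trace
  refine ⟨h1, ?_⟩
  rw [h1]
  have h2 : Module.finrank ℂ (LinearMap.range e) ≠ 0 := by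
    intro h3
    apply hne
    have h4 : LinearMap.range e = ⊥ := Submodule.finrank_eq_zero.mp h3
    exact LinearMap.range_eq_bot.mp h4
  exact_mod_cast h2

/-- a block on which some element acts nontrivially can be refined -/
theorem Blk.refine' {S : Subgroup G} {e : Module.End ℂ V} (hirr : ρ.IsIrreducible)
    (hb : Blk ρ S e) (hG : Good N) (hns : ∃ a : N, (a : G) ∈ S ∧ ¬ Sc ρ e a) :
    ∃ (S' : Subgroup G) (e' : Module.End ℂ V), Blk ρ S' e' ∧
      Module.finrank ℂ (LinearMap.range e') < Module.finrank ℂ (LinearMap.range e) := by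
  obtain ⟨a₀, ha₀, ha₀'⟩ := hns
  obtain ⟨A₁, hA₁n, hA₁N, hns1, hcomm1⟩ := good_find hb hG le_rfl ⟨a₀, a₀.2, ha₀, ha₀'⟩
  let A : Subgroup G := A₁ ⊓ S
  have hA : A ≤ N := inf_le_left.trans hA₁N
  have hAS : A ≤ S := inf_le_right
  have hAn : ∀ s ∈ S, ∀ a ∈ A, s * a * s⁻¹ ∈ A := fun s hs a ha =>
    ⟨hA₁n.conj_mem a ha.1 s, S.mul_mem (S.mul_mem hs ha.2) (S.inv_mem hs)⟩
  -- the range of `e`
  have hUmem : ∀ u : V, u ∈ LinearMap.range e ↔ e u = u := by
    intro u
    constructor
    · rintro ⟨v, rfl⟩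
      exact congrArg (fun T : Module.End ℂ V => T v) hb.idem
    · intro h
      exact ⟨u, h⟩
  have hU : LinearMap.range e ≠ ⊥ := fun h => hb.ne (LinearMap.range_eq_bot.mp h)
  have hcommv : ∀ h : N, (h : G) ∈ S → ∀ v : V, e (ρ h v) = ρ h (e v) := fun h hh v =>
    congrArg (fun T : Module.End ℂ V => T v) (hb.comm h hh)
  obtain ⟨u₀, hu₀, hu₀', heig⟩ := common_eig (fun a : A => ρ (Subgroup.inclusion hA a)) _
    (LinearMap.range e) rfl hU
    (fun a w hw => by
      rw [hUmem] at hw ⊢
      rw [hcommv _ (hAS a.2), hw])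
    (fun a b w hw => by
      rw [hUmem] at hw
      have h1 := congrArg (fun T : Module.End ℂ V => T w)
        (hcomm1 (Subgroup.inclusion hA a) (Subgroup.inclusion hA b) a.2.1 a.2.2 b.2.1 b.2.2)
      simp only [Module.End.mul_apply, hw] at h1
      exact h1)
  rw [hUmem] at hu₀
  choose b hb' using heig
  have hbinj : ∀ c d : ℂ, c • u₀ = d • u₀ → c = d := fun c d h => smul_left_injective ℂ hu₀' h
  let β : A →* ℂ :=
    { toFun := b
      map_one' := hbinj _ _ (by rw [← hb', map_one, map_one, one_smul]; rfl)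
      map_mul' := fun x y => hbinj _ _ (by
        rw [← hb', map_mul, map_mul, Module.End.mul_apply, hb' y, map_smul, hb' x, smul_smul,
          mul_comm]) }
  have hβ : ∀ a : A, ρ (Subgroup.inclusion hA a) u₀ = β a • u₀ := hb'
  set P := proj ρ hA β with hP
  have hPu₀ : P u₀ = u₀ := proj_eig hA β u₀ hβ
  have heP : e * P = P * e := by
    rw [hP]
    unfold proj
    rw [mul_smul_comm, smul_mul_assoc]
    congr 1
    rw [Finset.mul_sum, Finset.sum_mul]
    refine Finset.sum_congr rfl fun a _ => ?_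
    rw [mul_smul_comm, smul_mul_assoc, hb.comm _ (hAS a.2)]
  have heQ : ∀ γ : A →* ℂ, e * proj ρ hA γ = proj ρ hA γ * e := by
    intro γ
    unfold proj
    rw [mul_smul_comm, smul_mul_assoc]
    congr 1
    rw [Finset.mul_sum, Finset.sum_mul]
    refine Finset.sum_congr rfl fun a _ => ?_
    rw [mul_smul_comm, smul_mul_assoc, hb.comm _ (hAS a.2)]
  have hPP : P * P = P := proj_idem hA β
  -- the stabiliser
  let S' : Subgroup G :=
    { carrier := {s | s ∈ S ∧ ∀ a a' : A, (a' : G) = s * a * s⁻¹ → β a' = β a}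
      mul_mem' := by
        rintro s t ⟨hs, hs'⟩ ⟨ht, ht'⟩
        refine ⟨S.mul_mem hs ht, fun a a' h => ?_⟩
        rw [← ht' a ⟨t * a * t⁻¹, hAn t ht a a.2⟩ rfl]
        apply hs'
        rw [h]
        simp [mul_assoc]
      one_mem' := ⟨S.one_mem, fun a a' h => by
        congr 1
        ext
        rw [h]
        simp⟩
      inv_mem' := by
        rintro s ⟨hs, hs'⟩
        refine ⟨S.inv_mem hs, fun a a' h => ?_⟩
        symm
        apply hs'
        rw [h]
        group }
  have hS'S : S' ≤ S := fun s hs => hs.1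
  have hS'iff : ∀ s (hs : s ∈ S), s ∈ S' ↔ β.comp (cs s (hAn s hs)) = β := by
    intro s hs
    constructor
    · intro h
      ext a
      exact h.2 a _ rfl
    · intro h
      refine ⟨hs, fun a a' h' => ?_⟩
      have h1 := congrArg (fun f : A →* ℂ => f a) h
      simp only [MonoidHom.comp_apply] at h1
      rw [← h1]
      congr 1
      ext
      rw [h']
      rfl
  have hconj : ∀ (γ : A →* ℂ) (h : N) (hh : (h : G) ∈ S), ρ h * proj ρ hA γ =
      proj ρ hA (γ.comp (cs (h : G)⁻¹ (hAn _ (S.inv_mem hh)))) * ρ h := fun γ h hh =>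
    proj_conj hA γ h (hAn _ hh) (hAn _ (S.inv_mem hh))
  have hne' : P * e ≠ 0 := by
    intro h
    have h1 := congrArg (fun T : Module.End ℂ V => T u₀) h
    simp only [Module.End.mul_apply, hu₀, hPu₀] at h1
    exact hu₀' h1
  have hidem' : (P * e) * (P * e) = P * e := by
    calc (P * e) * (P * e) = P * (e * P) * e := by simp only [mul_assoc]
      _ = P * P * (e * e) := by rw [heP]; simp only [mul_assoc]
      _ = P * e := by rw [hPP, hb.idem]
  -- traces
  have htr : ∀ (γ : A →* ℂ) (m : N), LinearMap.trace ℂ V (proj ρ hA γ * e * ρ m) =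
      (Nat.card A : ℂ)⁻¹ * ∑ a : A, γ a⁻¹ *
        LinearMap.trace ℂ V (e * ρ (m * Subgroup.inclusion hA a)) := by
    intro γ m
    unfold proj
    rw [smul_mul_assoc, smul_mul_assoc, map_smul, smul_eq_mul]
    congr 1
    rw [Finset.sum_mul, Finset.sum_mul, map_sum]
    refine Finset.sum_congr rfl fun a _ => ?_
    rw [smul_mul_assoc, smul_mul_assoc, map_smul, smul_eq_mul, mul_assoc,
      LinearMap.trace_mul_comm, mul_assoc, ← map_mul]
  have hshift : ∀ (s : G) (hs : s ∈ S) (m : N) (a : A),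
      LinearMap.trace ℂ V (e * ρ (MulAut.conjNormal s m * Subgroup.inclusion hA
        (cs s (hAn s hs) a))) = LinearMap.trace ℂ V (e * ρ (m * Subgroup.inclusion hA a)) := by
    intro s hs m a
    rw [← hb.inv s hs (m * Subgroup.inclusion hA a)]
    congr 3
    ext
    simp [cs, MulAut.conjNormal_apply]
  have hcsbij : ∀ (s : G) (hs : s ∈ S), Function.Bijective (cs s (hAn s hs)) := by
    intro s hs
    rw [Fintype.bijective_iff_injective_and_card]
    refine ⟨?_, rfl⟩
    intro a b' h
    have h1 := congrArg (fun z : A => (z : G)) h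
    have h2 : s * a * s⁻¹ = s * b' * s⁻¹ := h1
    ext
    exact mul_left_cancel (mul_right_cancel h2)
  refine ⟨S', P * e, ⟨hidem', hne', ?_, ?_, ?_, hS'S.trans hb.le, ?_⟩, ?_⟩
  · -- comm
    intro h hh
    have hhS := hS'S hh
    have h1 : β.comp (cs (h : G)⁻¹ (hAn _ (S.inv_mem hhS))) = β :=
      (hS'iff _ (S.inv_mem hhS)).mp (S'.inv_mem hh)
    have h2 := hconj β h hhS
    rw [h1] at h2
    rw [← hP] at h2
    rw [mul_assoc, hb.comm h hhS, ← mul_assoc, ← h2, mul_assoc]
  · -- off
    intro n hn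
    by_cases hnS : (n : G) ∈ S
    · have h1 : β.comp (cs (n : G)⁻¹ (hAn _ (S.inv_mem hnS))) ≠ β := by
        intro h
        apply hn
        have := S'.inv_mem ((hS'iff _ (S.inv_mem hnS)).mpr h)
        rwa [inv_inv] at this
      have h2 := hconj β n hnS
      have h3 := proj_orth (ρ := ρ) hA h1.symm
      rw [← hP] at h2 h3
      calc P * e * ρ n * (P * e) = (e * P) * (ρ n * P) * e := by
            rw [heP]; simp only [mul_assoc]
        _ = e * (P * proj ρ hA (β.comp (cs (n : G)⁻¹ (hAn _ (S.inv_mem hnS))))) * ρ n * e := by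
            rw [h2]; simp only [mul_assoc]
        _ = 0 := by rw [h3]; simp
    · have h1 := hb.off n hnS
      calc P * e * ρ n * (P * e) = P * e * ρ n * (e * P) := by rw [heP]
        _ = P * (e * ρ n * e) * P := by simp only [mul_assoc]
        _ = 0 := by rw [h1]; simp
  · -- inv
    intro s hs n
    have hsS := hS'S hs
    rw [hP, htr, htr]
    congr 1
    symm
    refine Fintype.sum_bijective _ (hcsbij s hsS) _ _ fun a => ?_
    rw [hshift s hsS n a]
    congr 1
    have h1 := hs.2 a⁻¹ (cs s (hAn s hsS) a)⁻¹ (by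
      simp [cs, mul_assoc])
    exact h1.symm
  · -- cov
    intro t ht
    obtain ⟨n, hn⟩ := hb.cov t ht
    set s := (n : G) * t with hs
    let γ : A →* ℂ := β.comp (cs s (hAn s hn))
    have h1 : LinearMap.trace ℂ V (proj ρ hA γ * e) = LinearMap.trace ℂ V (P * e) := by
      have h2 := htr γ 1
      have h3 := htr β 1
      rw [map_one, mul_one] at h2 h3
      rw [hP, h2, h3]
      congr 1
      refine Fintype.sum_bijective _ (hcsbij s hn) _ _ fun a => ?_
      have h4 := hshift s hn 1 a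
      rw [map_one] at h4
      rw [h4]
      congr 1
      change β (cs s (hAn s hn) a⁻¹) = β (cs s (hAn s hn) a)⁻¹
      rw [map_inv]
    have h2 : proj ρ hA γ * e ≠ 0 := by
      intro h
      rw [h, map_zero] at h1
      exact (trace_idem_ne hidem' hne').2 h1.symm
    obtain ⟨h, hhS, hγ⟩ : ∃ h : N, ∃ hh : (h : G) ∈ S,
        γ = β.comp (cs (h : G)⁻¹ (hAn _ (S.inv_mem hh))) := by
      by_contra hcon
      push Not at hcon
      apply h2
      let W : Submodule ℂ V :=
        { carrier := {w | e w = w ∧ ∀ h : N, (h : G) ∈ S → proj ρ hA γ (ρ h w) = 0}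
          add_mem' := by
            rintro x y ⟨hx, hx1⟩ ⟨hy, hy1⟩
            refine ⟨by rw [map_add, hx, hy], fun h hh => ?_⟩
            rw [map_add, map_add, hx1 h hh, hy1 h hh, add_zero]
          zero_mem' := ⟨by simp, fun h _ => by simp⟩
          smul_mem' := by
            rintro c x ⟨hx, hx1⟩
            refine ⟨by rw [map_smul, hx], fun h hh => ?_⟩
            rw [map_smul, map_smul, hx1 h hh, smul_zero] }
      have hu₀W : u₀ ∈ W := by
        refine ⟨hu₀, fun h hh => ?_⟩
        have h3 := congrArg (fun T : Module.End ℂ V => T u₀) (hconj β h hh)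
        simp only [Module.End.mul_apply] at h3
        rw [← hP, hPu₀] at h3
        rw [h3]
        have h4 := congrArg (fun T : Module.End ℂ V => T (ρ h u₀))
          (proj_orth (ρ := ρ) hA (hcon h hh))
        exact h4
      have hW : W ≠ ⊥ := by
        intro h
        rw [h, Submodule.mem_bot] at hu₀W
        exact hu₀' hu₀W
      have hall := hb.irrU hirr W (fun w hw => hw.1) hW (by
        intro k hk w hw
        refine ⟨by rw [hcommv k hk, hw.1], fun h hh => ?_⟩
        have h5 := hw.2 (h * k) (S.mul_mem hh hk)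
        rw [map_mul] at h5
        exact h5)
      ext v
      have h6 := (hall (e v) (congrArg (fun T : Module.End ℂ V => T v) hb.idem)).2 1 S.one_mem
      rw [map_one] at h6
      exact h6
    refine ⟨n * MulAut.conjNormal t h, ?_⟩
    have hsh : ((n * MulAut.conjNormal t h : N) : G) * t = s * h := by
      rw [Subgroup.coe_mul, MulAut.conjNormal_apply, hs]
      group
    rw [hsh]
    refine ⟨S.mul_mem hn hhS, fun a a' ha' => ?_⟩
    have h3 := congrArg (fun f : A →* ℂ => f ⟨h * a * (h : G)⁻¹, hAn _ hhS a a.2⟩) hγ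
    simp only [γ, MonoidHom.comp_apply] at h3
    have h4 : a' = cs s (hAn s hn) ⟨h * a * (h : G)⁻¹, hAn _ hhS a a.2⟩ := by
      ext
      rw [ha']
      simp [cs]
      group
    have h5 : cs (h : G)⁻¹ (hAn _ (S.inv_mem hhS)) ⟨h * a * (h : G)⁻¹, hAn _ hhS a a.2⟩ = a := by
      ext
      simp [cs]
      group
    rw [h4, h3, h5]
  · -- rank
    apply Submodule.finrank_lt_finrank_of_lt
    have hle : LinearMap.range (P * e) ≤ LinearMap.range e := by
      rintro _ ⟨v, rfl⟩
      rw [hUmem]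
      have : e * (P * e) = P * e := by rw [← mul_assoc, heP, mul_assoc, hb.idem]
      exact congrArg (fun T : Module.End ℂ V => T v) this
    refine lt_of_le_of_ne hle fun h => ?_
    obtain ⟨a, haA, haS, hasc⟩ := hns1
    apply hasc
    refine ⟨β ⟨a, haA, haS⟩, ?_⟩
    ext v
    have h1 : e v ∈ LinearMap.range (P * e) := by rw [h]; exact ⟨v, rfl⟩
    obtain ⟨w, hw⟩ := h1
    have h2 := congrArg (fun T : Module.End ℂ V => T (e w))
      (proj_left (ρ := ρ) hA β ⟨a, haA, haS⟩)
    simp only [Module.End.mul_apply, LinearMap.smul_apply] at h2 hw ⊢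
    rw [← hP, hw] at h2
    exact h2

end Pool.Agent.R678.MC
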