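import Pool.Agent.R678.MC.E

/-!
Stable monomiality and the final count.
-/

open scoped BigOperators Classical
open Representation Pool.Agent.Helper884.IC Pool.Agent.Y63.AWC

set_option linter.unusedSectionVars false
set_option linter.style.haveILetI false

noncomputable section

namespace Pool.Agent.R678.MC

variable {G : Type} [Group G] [Fintype G] {N : Subgroup G} [hN : N.Normal]
variable {V : Type} [AddCommGroup V] [Module ℂ V] [FiniteDimensional ℂ V]
  {ρ : Representation ℂ N V}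

lemma schur' {H : Type} [Group H] (ρ : Representation ℂ H V) (hirr : ρ.IsIrreducible)
    (T : Module.End ℂ V) (hcomm : ∀ h : H, T * ρ h = ρ h * T) : ∃ c : ℂ, T = c • 1 := by
  let T0 : V →ₗ[ℂ] V := T
  let T' : IntertwiningMap ρ ρ := T0.intertwiningMap_of_isIntertwiningMap ρ ρ
    (fun h v => congrArg (fun S : Module.End ℂ V => S v) (hcomm h))
  obtain ⟨c, hc⟩ := (Representation.IsIrreducible.algebraMap_intertwiningMap_bijective_of_isAlgClosed
    (ρ := ρ)).2 T'
  refine ⟨c, ?_⟩
  ext v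
  have := congrArg (fun S : IntertwiningMap ρ ρ => S v) hc
  have h2 : T' v = T v := rfl
  rw [← h2]
  exact this.symm

lemma inert_class (n : N) : (n : G) ∈ inert N ρ.character := by
  rw [mem_inert]
  funext m
  unfold cj
  have h : MulAut.conjNormal (n : G) m = n * m * n⁻¹ := by
    ext
    rw [MulAut.conjNormal_apply]
    simp
  rw [h, ρ.char_conj]

lemma blk_start (hirr : ρ.IsIrreducible) : Blk ρ (inert N ρ.character) 1 := by
  haveI : Nontrivial V := irr_nontrivial ρ hirr
  refine ⟨one_mul 1, one_ne_zero, fun h _ => by rw [one_mul, mul_one], fun n hn => ?_,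
    fun s hs n => ?_, le_rfl, fun t ht => ⟨1, by simpa using ht⟩⟩
  · exact absurd (inert_class n) hn
  · rw [one_mul, one_mul]
    exact congrFun (mem_inert.mp hs) n

/-- stable monomiality -/
theorem stable_monomial (hirr : ρ.IsIrreducible) (hG : Good N) :
    ∃ (S : Subgroup G) (e : Module.End ℂ V), Blk ρ S e ∧ ∀ h : N, (h : G) ∈ S → Sc ρ e h := by
  have key : ∀ (n : ℕ) (S : Subgroup G) (e : Module.End ℂ V),
      Module.finrank ℂ (LinearMap.range e) = n → Blk ρ S e →
      ∃ (S : Subgroup G) (e : Module.End ℂ V), Blk ρ S e ∧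
        ∀ h : N, (h : G) ∈ S → Sc ρ e h := by
    intro n
    induction n using Nat.strong_induction_on with
    | _ n ih =>
      intro S e hn hb
      by_cases h : ∀ h : N, (h : G) ∈ S → Sc ρ e h
      · exact ⟨S, e, hb, h⟩
      · push Not at h
        obtain ⟨S', e', hb', hlt⟩ := hb.refine' hirr hG h
        exact ih _ (by rw [← hn]; exact hlt) S' e' rfl hb'
  exact key _ _ _ rfl (blk_start hirr)

section fin

variable {S : Subgroup G} {e : Module.End ℂ V}

/-- the average of the conjugates of the block projection -/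
def EE (ρ : Representation ℂ N V) (e : Module.End ℂ V) : Module.End ℂ V :=
  ∑ n : N, ρ n * e * ρ n⁻¹

lemma rho_inv (ρ : Representation ℂ N V) (n : N) : ρ n * ρ n⁻¹ = 1 := by
  rw [← map_mul, mul_inv_cancel, map_one]

lemma rho_inv' (ρ : Representation ℂ N V) (n : N) : ρ n⁻¹ * ρ n = 1 := by
  rw [← map_mul, inv_mul_cancel, map_one]

lemma EE_comm (m : N) : EE ρ e * ρ m = ρ m * EE ρ e := by
  unfold EE
  rw [Finset.sum_mul, Finset.mul_sum]
  refine (Fintype.sum_equiv (Equiv.mulLeft m) _ _ fun n => ?_).symm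
  rw [Equiv.coe_mulLeft, mul_inv_rev, map_mul, map_mul]
  calc ρ m * (ρ n * e * ρ n⁻¹) = ρ m * ρ n * e * ρ n⁻¹ := by simp only [mul_assoc]
    _ = ρ m * ρ n * e * (ρ n⁻¹ * (ρ m⁻¹ * ρ m)) := by rw [rho_inv', mul_one]
    _ = _ := by simp only [mul_assoc]

lemma EE_eq (hirr : ρ.IsIrreducible) (hb : Blk ρ S e) :
    EE ρ e = (Nat.card (S.subgroupOf N) : ℂ) • 1 := by
  obtain ⟨c, hc⟩ := schur' ρ hirr (EE ρ e) EE_comm
  have h1 : EE ρ e * e = (Nat.card (S.subgroupOf N) : ℂ) • e := by
    unfold EE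
    rw [Finset.sum_mul]
    have h2 : ∀ n : N, ρ n * e * ρ n⁻¹ * e = if n ∈ S.subgroupOf N then e else 0 := by
      intro n
      by_cases hn : n ∈ S.subgroupOf N
      · rw [if_pos hn]
        have h3 : ((n⁻¹ : N) : G) ∈ S := S.inv_mem (Subgroup.mem_subgroupOf.mp hn)
        rw [mul_assoc, ← hb.comm _ h3, mul_assoc, ← mul_assoc e e, hb.idem, hb.comm _ h3,
          ← mul_assoc, rho_inv, one_mul]
      · rw [if_neg hn]
        have h3 : ((n⁻¹ : N) : G) ∉ S := fun h => hn (Subgroup.mem_subgroupOf.mpr (by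
          have := S.inv_mem h
          simpa using this))
        rw [mul_assoc, mul_assoc, ← mul_assoc e, hb.off _ h3, mul_zero]
    rw [Finset.sum_congr rfl fun n _ => h2 n, ← Finset.sum_filter, Finset.sum_const,
      ← Nat.cast_smul_eq_nsmul ℂ]
    congr 2
    rw [← Fintype.card_subtype, Nat.card_eq_fintype_card]
  rw [hc, smul_mul_assoc, one_mul] at h1
  have h4 : (c - (Nat.card (S.subgroupOf N) : ℂ)) • e = 0 := by rw [sub_smul, h1, sub_self]
  rcases smul_eq_zero.mp h4 with h5 | h5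
  · rw [hc, sub_eq_zero.mp h5]
  · exact absurd h5 hb.ne

lemma trace_one_of_sc (hirr : ρ.IsIrreducible) (hb : Blk ρ S e)
    (hsc : ∀ h : N, (h : G) ∈ S → Sc ρ e h) : LinearMap.trace ℂ V e = 1 := by
  rw [(trace_idem_ne hb.idem hb.ne).1]
  have hne : LinearMap.range e ≠ ⊥ := fun h => hb.ne (LinearMap.range_eq_bot.mp h)
  obtain ⟨u, hu, hu0⟩ := Submodule.exists_mem_ne_zero_of_ne_bot hne
  have hmem : ∀ u : V, u ∈ LinearMap.range e → e u = u := by
    rintro _ ⟨v, rfl⟩
    exact congrArg (fun T : Module.End ℂ V => T v) hb.idem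
  have hle : LinearMap.range e ≤ Submodule.span ℂ {u} := by
    intro w hw
    refine hb.irrU hirr (Submodule.span ℂ {u}) ?_ ?_ ?_ w (hmem w hw)
    · intro x hx
      obtain ⟨c, rfl⟩ := Submodule.mem_span_singleton.mp hx
      rw [map_smul, hmem u hu]
    · intro h
      exact hu0 (Submodule.span_singleton_eq_bot.mp h)
    · intro h hh x hx
      obtain ⟨c, rfl⟩ := Submodule.mem_span_singleton.mp hx
      obtain ⟨d, hd⟩ := hsc h hh
      have h1 := congrArg (fun T : Module.End ℂ V => T u) hd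
      simp only [Module.End.mul_apply, LinearMap.smul_apply, hmem u hu] at h1
      rw [map_smul, h1]
      exact Submodule.smul_mem _ _ (Submodule.smul_mem _ _ (Submodule.mem_span_singleton_self u))
  have h1 : Module.finrank ℂ (LinearMap.range e) ≤ 1 := by
    refine (Submodule.finrank_mono hle).trans ?_
    rw [finrank_span_singleton hu0]
  have h2 : 0 < Module.finrank ℂ (LinearMap.range e) := by
    rw [Nat.pos_iff_ne_zero]
    intro h
    exact hne (Submodule.finrank_eq_zero.mp h)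
  have h3 : Module.finrank ℂ (LinearMap.range e) = 1 := by omega
  rw [h3, Nat.cast_one]

lemma index_eq (hirr : ρ.IsIrreducible) (hb : Blk ρ S e)
    (hsc : ∀ h : N, (h : G) ∈ S → Sc ρ e h) :
    S.index = (inert N ρ.character).index * Module.finrank ℂ V := by
  set T := inert N ρ.character with hT
  have hNT : N ≤ T := fun n hn => inert_class (ρ := ρ) ⟨n, hn⟩
  have hsup : S ⊔ N = T := by
    apply le_antisymm (sup_le hb.le hNT)
    intro t ht
    obtain ⟨n, hn⟩ := hb.cov t ht
    have : t = (n : G)⁻¹ * ((n : G) * t) := by group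
    rw [this]
    exact (S ⊔ N).mul_mem ((S ⊔ N).inv_mem (Subgroup.mem_sup_right n.2))
      (Subgroup.mem_sup_left hn)
  have h1 : S.relIndex T = S.relIndex N := by
    have a1 := Subgroup.relIndex_mul_relIndex (H := S ⊓ N) (K := N) (L := T) inf_le_right hNT
    have a2 := Subgroup.relIndex_mul_relIndex (H := S ⊓ N) (K := S) (L := T) inf_le_left hb.le
    have a3 : N.relIndex T = N.relIndex S := by rw [← hsup, Subgroup.relIndex_sup_right]
    have a4 : (S ⊓ N).relIndex S = N.relIndex S := Subgroup.inf_relIndex_left S N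
    have a5 : (S ⊓ N).relIndex N = S.relIndex N := Subgroup.inf_relIndex_right S N
    rw [a3, a5] at a1
    rw [a4] at a2
    have a6 : N.relIndex S ≠ 0 := Subgroup.index_ne_zero_of_finite
    have a7 : N.relIndex S * S.relIndex T = N.relIndex S * S.relIndex N := by
      rw [a2, ← a1, mul_comm]
    exact Nat.eq_of_mul_eq_mul_left (Nat.pos_of_ne_zero a6) a7
  have h2 : S.relIndex N = Module.finrank ℂ V := by
    have b1 := congrArg (LinearMap.trace ℂ V) (EE_eq hirr hb)
    have b2 : LinearMap.trace ℂ V (EE ρ e) = (Nat.card N : ℂ) * 1 := by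
      unfold EE
      rw [map_sum]
      have : ∀ n : N, LinearMap.trace ℂ V (ρ n * e * ρ n⁻¹) = 1 := by
        intro n
        rw [LinearMap.trace_mul_comm, ← mul_assoc, rho_inv', one_mul, trace_one_of_sc hirr hb hsc]
      rw [Finset.sum_congr rfl fun n _ => this n, Finset.sum_const, Finset.card_univ,
        nsmul_eq_mul, Nat.card_eq_fintype_card]
    rw [b2, map_smul, smul_eq_mul, mul_one, LinearMap.trace_one] at b1
    have b3 : Nat.card N = Nat.card (S.subgroupOf N) * Module.finrank ℂ V := by exact_mod_cast b1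
    have b4 := (S.subgroupOf N).card_mul_index
    have b5 : Nat.card (S.subgroupOf N) * (S.subgroupOf N).index =
        Nat.card (S.subgroupOf N) * Module.finrank ℂ V := by rw [b4, b3]
    exact Nat.eq_of_mul_eq_mul_left Nat.card_pos b5
  rw [← Subgroup.relIndex_mul_index hb.le, h1, h2, mul_comm]

/-- commutators of elements whose conjugates lie in `S` act trivially -/
lemma comm_trivial (hirr : ρ.IsIrreducible) (hb : Blk ρ S e)
    (hsc : ∀ h : N, (h : G) ∈ S → Sc ρ e h) (x y : N)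
    (hx : ∀ n : N, ((n⁻¹ * x * n : N) : G) ∈ S) (hy : ∀ n : N, ((n⁻¹ * y * n : N) : G) ∈ S) :
    ρ (x * y * x⁻¹ * y⁻¹) = 1 := by
  have key : ∀ a b : N, (a : G) ∈ S → (b : G) ∈ S → ρ (a * b * a⁻¹ * b⁻¹) * e = e := by
    intro a b ha hb'
    obtain ⟨c, hc⟩ := hsc a ha
    obtain ⟨d, hd⟩ := hsc b hb'
    have h1 : ρ (a * b) * e = ρ (b * a) * e := by
      rw [map_mul, map_mul, mul_assoc, mul_assoc, hd, hc, mul_smul_comm, mul_smul_comm, hc, hd,
        smul_comm]
    have h2 : (((b * a)⁻¹ : N) : G) ∈ S := S.inv_mem (S.mul_mem hb' ha)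
    have h3 : a * b * a⁻¹ * b⁻¹ = (a * b) * (b * a)⁻¹ := by group
    rw [h3, map_mul, mul_assoc, ← hb.comm _ h2, ← mul_assoc, h1, mul_assoc, hb.comm _ h2,
      ← mul_assoc, rho_inv, one_mul]
  have h4 : ρ (x * y * x⁻¹ * y⁻¹) * EE ρ e = EE ρ e := by
    unfold EE
    rw [Finset.mul_sum]
    refine Finset.sum_congr rfl fun n _ => ?_
    have h5 := key _ _ (hx n) (hy n)
    have h6 : x * y * x⁻¹ * y⁻¹ * n = n * ((n⁻¹ * x * n) * (n⁻¹ * y * n) * (n⁻¹ * x * n)⁻¹ *
        (n⁻¹ * y * n)⁻¹) := by group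
    calc ρ (x * y * x⁻¹ * y⁻¹) * (ρ n * e * ρ n⁻¹) = ρ (x * y * x⁻¹ * y⁻¹ * n) * e * ρ n⁻¹ := by
          rw [map_mul _ _ n]; simp only [mul_assoc]
      _ = ρ n * (ρ ((n⁻¹ * x * n) * (n⁻¹ * y * n) * (n⁻¹ * x * n)⁻¹ * (n⁻¹ * y * n)⁻¹) * e) *
          ρ n⁻¹ := by rw [h6, map_mul _ n]; simp only [mul_assoc]
      _ = ρ n * e * ρ n⁻¹ := by rw [h5]
  rw [EE_eq hirr hb, mul_smul_comm, mul_one] at h4
  have h7 : (Nat.card (S.subgroupOf N) : ℂ) ≠ 0 := by exact_mod_cast Nat.card_pos.ne'
  exact smul_right_injective _ h7 h4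

end fin

end Pool.Agent.R678.MC
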