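import Pool.Agent.R678.MC.F

/-!
The final count.
-/

open scoped BigOperators Classical
open Representation Pool.Agent.Helper884.IC Pool.Agent.Y63.AWC

set_option linter.unusedSectionVars false
set_option linter.style.haveILetI false

noncomputable section

namespace Pool.Agent.R678.MC

variable {G : Type} [Group G] [Fintype G] {N : Subgroup G} [hN : N.Normal]

/-- invariant linear characters are trivial on `[N, G]` -/
lemma inv_lin {θ : N → ℂ} (hθ : IsIrrChar θ) (h1 : θ 1 = 1) (hinv : ∀ x : G, cj N x θ = θ)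
    (d : N) (hd : (d : G) ∈ ⁅N, (⊤ : Subgroup G)⁆) : θ d = 1 := by
  obtain ⟨lam, hlam⟩ := linear_hom hθ h1
  have hle : ⁅N, (⊤ : Subgroup G)⁆ ≤ lam.ker.map N.subtype := by
    rw [Subgroup.commutator_le]
    intro n hn g _
    have h2 : g * n⁻¹ * g⁻¹ ∈ N := hN.conj_mem _ (N.inv_mem hn) g
    refine ⟨⟨n, hn⟩ * ⟨g * n⁻¹ * g⁻¹, h2⟩, ?_, ?_⟩
    · have h3 := congrFun (hinv g) (⟨n, hn⟩⁻¹ : N)
      have h4 : MulAut.conjNormal g (⟨n, hn⟩⁻¹ : N) = ⟨g * n⁻¹ * g⁻¹, h2⟩ := by
        ext
        rw [MulAut.conjNormal_apply]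
        rfl
      unfold cj at h3
      rw [h4, hlam, hlam] at h3
      have h5 : lam ⟨g * n⁻¹ * g⁻¹, h2⟩ = lam (⟨n, hn⟩⁻¹ : N) := Units.ext h3
      change lam (⟨n, hn⟩ * ⟨g * n⁻¹ * g⁻¹, h2⟩) = 1
      rw [map_mul, h5, ← map_mul, mul_inv_cancel, map_one]
    · change n * (g * n⁻¹ * g⁻¹) = n * g * n⁻¹ * g⁻¹
      group
  obtain ⟨y, hy, hyd⟩ := hle hd
  have h6 : y = d := Subtype.ext hyd
  rw [← h6, hlam]
  have : lam y = 1 := hy
  rw [this]
  simp

lemma lamExt_one (S : Subgroup G) (g : G) : lamExt S 1 g = if g ∈ S then 1 else 0 := by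
  unfold lamExt
  split_ifs <;> simp

lemma indChar_val (S : Subgroup G) (g : G) : indChar S 1 g = (Nat.card S : ℂ)⁻¹ *
    ((Finset.univ.filter fun y : G => y⁻¹ * g * y ∈ S).card : ℂ) := by
  unfold indChar
  congr 1
  rw [Finset.sum_congr rfl fun y _ => lamExt_one S _, Finset.sum_boole]

lemma indChar_one (S : Subgroup G) : indChar S 1 1 = (S.index : ℂ) := by
  rw [indChar_val]
  have h : (Finset.univ.filter fun y : G => y⁻¹ * 1 * y ∈ S) = Finset.univ := by
    ext y
    simp
  rw [h, Finset.card_univ, ← Nat.card_eq_fintype_card, ← S.card_mul_index]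
  push_cast
  field_simp [cardC_ne S]

lemma B_ind_triv (S : Subgroup G) : B (indChar S 1) (fun _ : G => (1 : ℂ)) = 1 := by
  rw [frob S 1 _ (fun _ _ => rfl)]
  have h : ∑ g : G, lamExt S 1 g * (1 : ℂ) = Nat.card S := by
    simp only [mul_one]
    rw [Finset.sum_congr rfl fun y _ => lamExt_one S _, Finset.sum_boole,
      ← Fintype.card_subtype, Nat.card_eq_fintype_card]
  rw [h, inv_mul_cancel₀ (cardC_ne S)]

/-- a subgroup of index `f` contains `[N, G]` -/
lemma comm_le_of_index {f : ℕ} (_hf : 1 < f)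
    (hM : ∀ θ : N → ℂ, IsIrrChar θ → ((inert N θ).index * θ 1 = 1 ∨
      (inert N θ).index * θ 1 = (f : ℂ))) (S : Subgroup G) (hS : S.index = f) :
    ⁅N, (⊤ : Subgroup G)⁆ ≤ S := by
  choose! n hn using fun (χ : G → ℂ) (hχ : χ ∈ Irr G) => mult_nat S 1 (mem_Irr.mp hχ)
  choose! dg hdg0 hdg using fun (χ : G → ℂ) (hχ : χ ∈ Irr G) => deg_nat (mem_Irr.mp hχ)
  have hexp : ∀ g : G, indChar S 1 g = ∑ χ ∈ Irr G, (n χ : ℂ) * χ g := by
    intro g
    have h1 := congrFun (expand (indChar S 1) (isClass_indChar S 1)) g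
    rw [h1, Finset.sum_apply]
    refine Finset.sum_congr rfl fun χ hχ => ?_
    rw [Pi.smul_apply, smul_eq_mul, hn χ hχ]
  have htriv : (fun _ : G => (1 : ℂ)) ∈ Irr G := mem_Irr.mpr triv_irr
  have hntriv : n (fun _ : G => (1 : ℂ)) = 1 := by
    have h1 := hn _ htriv
    rw [B_ind_triv] at h1
    exact_mod_cast h1.symm
  have hsum : f = ∑ χ ∈ Irr G, n χ * dg χ := by
    have h1 := hexp 1
    rw [indChar_one, hS] at h1
    have h2 : (f : ℂ) = ((∑ χ ∈ Irr G, n χ * dg χ : ℕ) : ℂ) := by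
      rw [h1]
      push_cast
      exact Finset.sum_congr rfl fun χ hχ => by rw [hdg χ hχ]
    exact_mod_cast h2
  have hdgtriv : dg (fun _ : G => (1 : ℂ)) = 1 := by
    have := hdg _ htriv
    exact_mod_cast this.symm
  intro d hd
  have hdN : d ∈ N := Subgroup.commutator_le_left N ⊤ hd
  have hval : ∀ χ ∈ Irr G, (n χ : ℂ) * χ d = (n χ : ℂ) * χ 1 := by
    intro χ hχ
    by_cases h0 : n χ = 0
    · simp [h0]
    by_cases h1 : χ = fun _ => 1
    · rw [h1]
    congr 1
    have hχ' := mem_Irr.mp hχ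
    have hlt : dg χ < f := by
      have h2 : n (fun _ : G => (1 : ℂ)) * dg (fun _ : G => (1 : ℂ)) + n χ * dg χ ≤ f := by
        rw [hsum]
        have h3 : ({(fun _ : G => (1 : ℂ)), χ} : Finset (G → ℂ)) ⊆ Irr G := by
          intro ψ hψ
          rcases Finset.mem_insert.mp hψ with rfl | hψ
          · exact htriv
          · rw [Finset.mem_singleton.mp hψ]; exact hχ
        have h4 := Finset.sum_le_sum_of_subset (f := fun χ => n χ * dg χ) h3
        rwa [Finset.sum_pair (Ne.symm h1)] at h4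
      rw [hntriv, hdgtriv] at h2
      have h5 : dg χ ≤ n χ * dg χ := Nat.le_mul_of_pos_left _ (Nat.pos_of_ne_zero h0)
      omega
    obtain ⟨θ, hθ, hm⟩ := exists_under (N := N) hχ'
    have hhat := hat hχ' hθ hm
    have h6 : (inert N θ).index * θ 1 = 1 := by
      rcases hM θ hθ with h6 | h6
      · exact h6
      · exfalso
        rw [h6, hdg χ hχ] at hhat
        have h7 : dg χ = mult N χ θ * f := by exact_mod_cast hhat
        have h8 : f ≤ mult N χ θ * f := Nat.le_mul_of_pos_left _ (Nat.pos_of_ne_zero hm)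
        omega
    obtain ⟨m, hm0, hm1⟩ := deg_nat hθ
    have h7 : (inert N θ).index * m = 1 := by
      rw [hm1] at h6
      exact_mod_cast h6
    have h8 : (inert N θ).index = 1 := Nat.eq_one_of_mul_eq_one_right h7
    have h9 : m = 1 := Nat.eq_one_of_mul_eq_one_left h7
    have hθ1 : θ 1 = 1 := by rw [hm1, h9, Nat.cast_one]
    have htop : inert N θ = ⊤ := Subgroup.index_eq_one.mp h8
    have hinv : ∀ x : G, cj N x θ = θ := fun x => by
      rw [← mem_inert, htop]; exact Subgroup.mem_top x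
    have hres : res N χ = (mult N χ θ : ℂ) • θ := by
      rw [res_eq N hχ', Finset.sum_eq_single θ]
      · intro θ' hθ' hne
        by_cases h10 : mult N χ θ' = 0
        · rw [h10, Nat.cast_zero, zero_smul]
        · exfalso
          obtain ⟨x, hx⟩ := orbit_of_mult hχ' (mem_Irr.mp hθ') hθ h10 hm
          rw [hinv x] at hx
          exact hne hx.symm
      · intro h10
        exact absurd (mem_Irr.mpr hθ) h10
    have h11 := congrFun hres ⟨d, hdN⟩
    have h12 := congrFun hres 1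
    rw [Pi.smul_apply, smul_eq_mul] at h11 h12
    have h13 : χ d = (mult N χ θ : ℂ) * θ ⟨d, hdN⟩ := h11
    have h14 : χ 1 = (mult N χ θ : ℂ) * θ 1 := h12
    rw [h13, h14, hθ1, inv_lin hθ hθ1 hinv ⟨d, hdN⟩ hd]
  have hfin : indChar S 1 d = indChar S 1 1 := by
    rw [hexp, hexp]
    exact Finset.sum_congr rfl hval
  rw [indChar_val, indChar_val] at hfin
  have h15 := mul_left_cancel₀ (inv_ne_zero (cardC_ne S)) hfin
  have h16 : (Finset.univ.filter fun y : G => y⁻¹ * d * y ∈ S).card =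
      (Finset.univ.filter fun y : G => y⁻¹ * 1 * y ∈ S).card := by exact_mod_cast h15
  have h17 : (Finset.univ.filter fun y : G => y⁻¹ * 1 * y ∈ S) = Finset.univ := by
    ext y
    simp
  rw [h17] at h16
  have h18 := Finset.eq_univ_of_card _ (by rw [h16, Finset.card_univ])
  have h19 : (1 : G) ∈ (Finset.univ.filter fun y : G => y⁻¹ * d * y ∈ S) := by
    rw [h18]; exact Finset.mem_univ _
  have h20 := (Finset.mem_filter.mp h19).2
  simpa using h20

theorem main {p : ℕ} (hp : p.Prime) (a : ℕ)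
    (hM : ∀ θ : N → ℂ, IsIrrChar θ → ((inert N θ).index * θ 1 = 1 ∨
      (inert N θ).index * θ 1 = ((p ^ a : ℕ) : ℂ))) :
    ∀ x ∈ ⁅N, (⊤ : Subgroup G)⁆, ∀ y ∈ ⁅N, (⊤ : Subgroup G)⁆, x * y = y * x := by
  have hPP : PP p N := by
    intro θ hθ
    rcases hM θ hθ with h | h
    · exact ⟨0, by rw [h]; simp⟩
    · exact ⟨a, h.symm⟩
  have hgood := good_of_PP hp _ N rfl hPP
  intro x hx y hy
  have hxN : x ∈ N := Subgroup.commutator_le_left N ⊤ hx
  have hyN : y ∈ N := Subgroup.commutator_le_left N ⊤ hy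
  have hconj : ∀ z ∈ ⁅N, (⊤ : Subgroup G)⁆, ∀ g : G, g⁻¹ * z * g ∈ ⁅N, (⊤ : Subgroup G)⁆ := by
    intro z hz g
    have h1 : (⁅N, (⊤ : Subgroup G)⁆).Normal := inferInstance
    have := h1.conj_mem z hz g⁻¹
    rwa [inv_inv] at this
  have h4 : (⟨x, hxN⟩ : N) * ⟨y, hyN⟩ * (⟨x, hxN⟩ : N)⁻¹ * (⟨y, hyN⟩ : N)⁻¹ = 1 := by
    apply eq_one_of_chars
    intro θ hθ
    have hθ' := hθ
    obtain ⟨V, _, _, _, ρ, hr, rfl⟩ := hθ'
    by_cases hlin : ρ.character 1 = 1
    · obtain ⟨lam, hlam⟩ := linear_hom hθ hlin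
      rw [hlam, hlam]
      simp only [map_mul, map_inv, map_one]
      congr 1
      rw [mul_comm (lam _) (lam ⟨y, hyN⟩)]
      group
    · obtain ⟨S, e, hb, hsc⟩ := stable_monomial hr hgood
      have hidx := index_eq hr hb hsc
      have hf : ((inert N ρ.character).index : ℂ) * ρ.character 1 = ((p ^ a : ℕ) : ℂ) := by
        rcases hM _ hθ with h | h
        · exfalso
          obtain ⟨m, hm0, hm1⟩ := deg_nat hθ
          rw [hm1] at h
          have h7 : (inert N ρ.character).index * m = 1 := by exact_mod_cast h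
          apply hlin
          rw [hm1, Nat.eq_one_of_mul_eq_one_left h7, Nat.cast_one]
        · exact h
      have hS : S.index = p ^ a := by
        rw [ρ.char_one] at hf
        have : (inert N ρ.character).index * Module.finrank ℂ V = p ^ a := by exact_mod_cast hf
        rw [hidx, this]
      have h1f : 1 < p ^ a := by
        by_contra hcon
        apply hlin
        obtain ⟨m, hm0, hm1⟩ := deg_nat hθ
        rw [hm1] at hf
        have h7 : (inert N ρ.character).index * m = p ^ a := by exact_mod_cast hf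
        have h8 : p ^ a = 1 := by
          have : 0 < p ^ a := pow_pos hp.pos a
          omega
        rw [h8] at h7
        rw [hm1, Nat.eq_one_of_mul_eq_one_left h7, Nat.cast_one]
      have hle := comm_le_of_index h1f hM S hS
      have h9 := comm_trivial hr hb hsc ⟨x, hxN⟩ ⟨y, hyN⟩
        (fun n => hle (hconj x hx n)) (fun n => hle (hconj y hy n))
      unfold Representation.character
      rw [h9, map_one ρ]
  have h5 := congrArg (fun z : N => (z : G)) h4
  simp only [Subgroup.coe_mul, Subgroup.coe_inv, Subgroup.coe_one] at h5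
  have h6 : x * y = 1 * y * x := by rw [← h5]; group
  rw [h6, one_mul]

end Pool.Agent.R678.MC
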